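import Mathlib

set_option autoImplicit false

namespace Pool.Agent.H.MP_9f71e8_nt

open Finset

noncomputable def p (j : ℕ) : ℕ := Nat.nth Nat.Prime j

def Rep (L n : ℕ) : Prop := ∃ α : ℕ → ℕ, (∀ j, 1 ≤ α j) ∧ n = ∑ j ∈ range L, p j ^ α j

lemma rep_succ (L n a : ℕ) (h : Rep L n) (ha : 1 ≤ a) : Rep (L + 1) (n + p L ^ a) := by
  obtain ⟨α, h1, rfl⟩ := h
  refine ⟨Function.update α L a, fun j => ?_, ?_⟩
  · rcases eq_or_ne j L with rfl | h
    · simpa
    · simpa [h] using h1 j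
  · rw [sum_range_succ, Function.update_self]
    congr 1
    exact sum_congr rfl fun j hj => by rw [Function.update_of_ne (mem_range.mp hj).ne]

lemma p_eq (j q : ℕ) (hq : q.Prime) (h : Nat.count Nat.Prime q = j) : p j = q := by
  rw [p, ← h, Nat.nth_count hq]

lemma p0 : p 0 = 2 := Nat.nth_prime_zero_eq_two
lemma p1 : p 1 = 3 := Nat.nth_prime_one_eq_three
lemma p2 : p 2 = 5 := Nat.nth_prime_two_eq_five
lemma p3 : p 3 = 7 := Nat.nth_prime_three_eq_seven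
lemma p4 : p 4 = 11 := Nat.nth_prime_four_eq_eleven
lemma p5 : p 5 = 13 := p_eq _ _ (by norm_num) (by decide +kernel)
lemma p6 : p 6 = 17 := p_eq _ _ (by norm_num) (by decide +kernel)
lemma p7 : p 7 = 19 := p_eq _ _ (by norm_num) (by decide +kernel)

def nx (q k : ℕ) (l : List ℕ) : List ℕ := l.flatMap fun x => (List.range k).map fun a => x + q ^ (a + 1)

lemma rep_nx (L q k : ℕ) (l : List ℕ) (hq : p L = q) (h : ∀ x ∈ l, Rep L x) :
    ∀ x ∈ nx q k l, Rep (L + 1) x := by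
  intro x hx
  obtain ⟨y, hy, hx⟩ := List.mem_flatMap.mp hx
  obtain ⟨a, -, rfl⟩ := List.mem_map.mp hx
  exact hq ▸ rep_succ L y _ (h y hy) (by omega)

def l1 : List ℕ := nx 2 8 [0]
def l2 : List ℕ := nx 3 5 l1
def l3 : List ℕ := nx 5 3 l2
def l4 : List ℕ := nx 7 2 l3
def l5 : List ℕ := nx 11 2 l4
def l6 : List ℕ := nx 13 1 l5
def l7 : List ℕ := nx 17 1 l6
def l8 : List ℕ := nx 19 1 l7

lemma r1 : ∀ x ∈ l1, Rep 1 x := rep_nx 0 _ _ _ p0 (by simpa using ⟨fun _ => 1, by simp⟩)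
lemma r2 : ∀ x ∈ l2, Rep 2 x := rep_nx 1 _ _ _ p1 r1
lemma r3 : ∀ x ∈ l3, Rep 3 x := rep_nx 2 _ _ _ p2 r2
lemma r4 : ∀ x ∈ l4, Rep 4 x := rep_nx 3 _ _ _ p3 r3
lemma r5 : ∀ x ∈ l5, Rep 5 x := rep_nx 4 _ _ _ p4 r4
lemma r6 : ∀ x ∈ l6, Rep 6 x := rep_nx 5 _ _ _ p5 r5
lemma r7 : ∀ x ∈ l7, Rep 7 x := rep_nx 6 _ _ _ p6 r6
lemma r8 : ∀ x ∈ l8, Rep 8 x := rep_nx 7 _ _ _ p7 r7

lemma small (n : ℕ) (h1 : 34 ≤ n) (h2 : n < 157) : ∃ L, 1 ≤ L ∧ Rep L n := by
  have h : ∀ n < 157, 34 ≤ n → n ∈ l1 ++ (l2 ++ (l3 ++ (l4 ++ (l5 ++ (l6 ++ (l7 ++ l8)))))) := by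
    decide +kernel
  simp only [List.mem_append] at h
  rcases h n h2 h1 with h | h | h | h | h | h | h | h
  exacts [⟨1, by omega, r1 n h⟩, ⟨2, by omega, r2 n h⟩, ⟨3, by omega, r3 n h⟩,
    ⟨4, by omega, r4 n h⟩, ⟨5, by omega, r5 n h⟩, ⟨6, by omega, r6 n h⟩, ⟨7, by omega, r7 n h⟩,
    ⟨8, by omega, r8 n h⟩]

noncomputable def S (L : ℕ) : ℕ := ∑ j ∈ range L, p j

noncomputable def D (L : ℕ) : ℕ := ∑ j ∈ range L, p j * (p j - 1)

lemma p_mono : StrictMono p := Nat.nth_strictMono Nat.infinite_setOfPred_prime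

lemma p_prime (j : ℕ) : (p j).Prime := Nat.prime_nth_prime j

lemma D_ge (L : ℕ) : L * (L + 1) * (L + 2) ≤ 3 * D L := by
  induction L with
  | zero => simp
  | succ L ih =>
    have h1 : L + 2 ≤ p L := Nat.add_two_le_nth_prime L
    have h2 : (L + 2) * (L + 1) ≤ p L * (p L - 1) := Nat.mul_le_mul h1 (by omega)
    rw [D, sum_range_succ, ← D]
    nlinarith

lemma cheb (L : ℕ) : 2 ^ p L ≤ (p L + 1) ^ (L + 2) := by
  have h1 := Chebyshev.two_pow_le_mul_lcmUpto (p L)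
  have h2 : Nat.lcmUpto (p L) ≤ (p L + 1) ^ (L + 1) := by
    have h3 : #(Nat.primesLE (p L)) = L + 1 := by
      rw [Nat.primesLE_card_eq_primeCounting, Nat.primeCounting, Nat.primeCounting',
        Nat.count_succ, if_pos (p_prime L), p, Nat.count_nth_of_infinite Nat.infinite_setOfPred_prime]
    rw [Nat.lcmUpto_eq_prod_pow_log, ← h3]
    exact prod_le_pow_card _ _ _ fun q _ =>
      (Nat.pow_log_le_self q (p_prime L).ne_zero).trans (Nat.le_succ _)
  rw [pow_succ']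
  exact h1.trans (Nat.mul_le_mul_left _ h2)

lemma cube (t : ℕ) : 4 * (t + 15) ^ 3 ≤ 2 ^ (t + 14) := by
  induction t with
  | zero => norm_num
  | succ t ih =>
    rw [show t + 1 + 14 = t + 14 + 1 by ring, pow_succ 2]
    nlinarith [Nat.zero_le t, Nat.zero_le (t ^ 2), Nat.zero_le (t ^ 3)]

lemma K_big (L : ℕ) (h : 2 ^ 14 ≤ p L) : p L * p L ≤ D L := by
  have h1 := Nat.pow_log_le_self 2 (p_prime L).ne_zero
  have h2 := Nat.lt_pow_succ_log_self (b := 2) (by norm_num) (p L)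
  obtain ⟨t, ht⟩ : ∃ t, Nat.log 2 (p L) = t + 14 :=
    ⟨_, (Nat.sub_add_cancel (Nat.le_log_of_pow_le (by norm_num) h)).symm⟩
  rw [ht] at h1 h2
  have h3 : p L ≤ (t + 15) * (L + 2) := by
    refine (Nat.pow_le_pow_iff_right (a := 2) (by norm_num)).mp ((cheb L).trans ?_)
    rw [pow_mul]
    exact Nat.pow_le_pow_left h2 _
  have h4 := (cube t).trans h1
  have h5 := D_ge L
  have hL : 10 ≤ L := by
    by_contra hL
    have : (t + 15) * (L + 2) ≤ (t + 15) * 12 := Nat.mul_le_mul_left _ (by omega)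
    nlinarith [Nat.zero_le t, Nat.zero_le (t ^ 2), Nat.zero_le (t ^ 3)]
  have h6 : (L + 2) ^ 3 ≤ 4 * D L := by
    have : 3 * (L + 2) ^ 2 ≤ 4 * (L * (L + 1)) := by nlinarith
    nlinarith
  have h7 := Nat.pow_le_pow_left h3 3
  refine Nat.le_of_mul_le_mul_left ?_ (p_prime L).pos
  calc p L * (p L * p L) = p L ^ 3 := by ring
    _ ≤ (t + 15) ^ 3 * (L + 2) ^ 3 := by rwa [← mul_pow]
    _ ≤ (t + 15) ^ 3 * (4 * D L) := Nat.mul_le_mul_left _ h6
    _ = 4 * (t + 15) ^ 3 * D L := by ring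
    _ ≤ p L * D L := Nat.mul_le_mul_right _ h4

def C : Finset ℕ := {2, 3, 5, 7, 11, 13, 17, 23, 31, 43, 61, 83, 113, 163, 229, 317, 449, 631, 887,
  1259, 1777, 2503, 3547, 5011, 7079, 10009, 14159, 20023}

lemma C_prime : ∀ c ∈ C, c.Prime := by
  simp only [C, mem_insert, mem_singleton, forall_eq_or_imp, forall_eq]
  norm_num

lemma C_chain : ∀ c ∈ C, 13 ≤ c → c * (c - 1) + 20 ≤ ∑ d ∈ C with d < c, d * (d - 1) := by
  decide +kernel

lemma K (L : ℕ) (h : 5 ≤ L) : p L * (p L - 1) + 20 ≤ D L := by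
  have h13 : 13 ≤ p L := p5 ▸ p_mono.monotone h
  rcases le_or_gt (2 ^ 14) (p L) with h1 | h1
  · have := K_big L h1
    rw [Nat.mul_sub_one]
    have := Nat.le_mul_self (p L)
    omega
  obtain ⟨c, hc, h2⟩ := exists_min_image (C.filter (p L ≤ ·)) id
    ⟨20023, mem_filter.mpr ⟨by decide +kernel, by omega⟩⟩
  obtain ⟨h3, h4⟩ := mem_filter.mp hc
  refine (Nat.add_le_add_right (Nat.mul_le_mul h4 (Nat.sub_le_sub_right h4 1)) _).trans
    ((C_chain c h3 (by omega)).trans ?_)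
  rw [D, ← sum_image (s := range L) (g := p) (f := fun d => d * (d - 1))
    fun _ _ _ _ h => p_mono.injective h]
  refine sum_le_sum_of_subset fun d hd => ?_
  obtain ⟨h5, h6⟩ := mem_filter.mp hd
  have h7 := p_eq _ d (C_prime d h5) rfl
  refine mem_image.mpr ⟨_, mem_range.mpr (p_mono.lt_iff_lt.mp ?_), h7⟩
  rw [h7]
  by_contra h8
  have := h2 d (mem_filter.mpr ⟨h5, by omega⟩)
  simp only [id] at this
  omega

lemma inv (L M : ℕ) (h1 : 58 ≤ M) (h2 : 2 * M ≤ 94 + D (L + 5)) : Rep (L + 5) (S (L + 5) + 2 * M) := by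
  induction L generalizing M with
  | zero =>
    have h3 : D 5 = 180 := by simp [D, sum_range_succ, p0, p1, p2, p3, p4]
    have h4 : S 5 = 28 := by simp [S, sum_range_succ, p0, p1, p2, p3, p4]
    rw [zero_add, h3] at h2
    rw [zero_add, h4]
    exact r5 _ ((by decide +kernel : ∀ M < 138, 58 ≤ M → 28 + 2 * M ∈ l5) M (by omega) h1)
  | succ L ih =>
    have h3 := K (L + 5) (by omega)
    rw [show L + 1 + 5 = L + 5 + 1 by ring] at *
    rw [D, sum_range_succ, ← D] at h2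
    rw [S, sum_range_succ, ← S]
    rcases le_or_gt (2 * M) (94 + D (L + 5)) with h4 | h4
    · have := rep_succ _ _ 1 (ih M h1 h4) le_rfl
      rwa [pow_one, add_right_comm (S _)] at this
    · obtain ⟨b, hb⟩ := Nat.even_mul_pred_self (p (L + 5))
      have hD : 2 ∣ D (L + 5) := dvd_sum fun j _ => (Nat.even_mul_pred_self _).two_dvd
      have := rep_succ _ _ 2 (ih (M - b) (by omega) (by omega)) (by norm_num)
      have h6 : b ≤ M := by omega
      rw [Nat.mul_sub_one] at hb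
      have h5 := Nat.le_mul_self (p (L + 5))
      convert this using 1
      rw [sq]
      omega

lemma ex_L (n : ℕ) : ∃ L, S (L + 6) + 116 ≤ n + 157 ∧ n + 157 < S (L + 7) + 116 := by
  induction n with
  | zero => exact ⟨0, by simp [S, sum_range_succ, p0, p1, p2, p3, p4, p5, p6]⟩
  | succ n ih =>
    obtain ⟨L, h1, h2⟩ := ih
    rcases (Nat.succ_le_of_lt h2).eq_or_lt with h | h
    · have := (p_prime (L + 7)).pos
      refine ⟨L + 1, by rw [show L + 1 + 6 = L + 7 by ring]; omega, ?_⟩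
      rw [show L + 1 + 7 = L + 7 + 1 by ring, S, sum_range_succ, ← S]
      omega
    · exact ⟨L, by omega, by omega⟩

theorem main (n : ℕ) (hn : 34 ≤ n) : ∃ L, 1 ≤ L ∧ Rep L n := by
  rcases lt_or_ge n 157 with h | h
  · exact small n hn h
  obtain ⟨n, rfl⟩ := Nat.exists_eq_add_of_le' h
  obtain ⟨L, h1, h2⟩ := ex_L n
  have e1 : S (L + 6) = S (L + 5) + p (L + 5) := sum_range_succ _ _
  have e2 : S (L + 7) = S (L + 6) + p (L + 6) := sum_range_succ _ _
  have e3 : D (L + 6) = D (L + 5) + p (L + 5) * (p (L + 5) - 1) := sum_range_succ _ _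
  have k1 := K (L + 5) (by omega)
  have k2 := K (L + 6) (by omega)
  have a1 : 13 ≤ p (L + 5) := p5 ▸ p_mono.monotone (by omega)
  have a2 : 13 ≤ p (L + 6) := p5 ▸ p_mono.monotone (by omega)
  have b1 : p (L + 5) * 12 ≤ p (L + 5) * (p (L + 5) - 1) := Nat.mul_le_mul_left _ (by omega)
  have b2 : p (L + 6) * 12 ≤ p (L + 6) * (p (L + 6) - 1) := Nat.mul_le_mul_left _ (by omega)
  have c1 := (p_prime (L + 5)).eq_two_or_odd
  rcases Nat.even_or_odd' (n + 157 - S (L + 5)) with ⟨M, hM | hM⟩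
  · exact ⟨L + 5, by omega, by convert inv L M (by omega) (by omega) using 1; omega⟩
  · have := inv (L + 1) ((n + 157 - S (L + 6)) / 2) (by omega)
      (by rw [show L + 1 + 5 = L + 6 by ring]; omega)
    rw [show L + 1 + 5 = L + 6 by ring] at this
    exact ⟨L + 6, by omega, by convert this using 1; omega⟩

end Pool.Agent.H.MP_9f71e8_nt
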